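import Pool.Agent.Y714.KE.BasB

set_option autoImplicit false
set_option linter.unusedSectionVars false
set_option linter.unusedVariables false

/-! Project KE, piece CR: the crude bound, uniform in the ideal. -/

namespace Pool.Agent.Y858.KE

open Pool.Agent.Y714
open Pool.Agent.Y714.KF (FI sp ct nm pm ext br gl ubas qf bk el sg bf)
open Pool.Agent.Y714.KE
open NumberField FractionalIdeal Module Finset ComplexConjugate MeasureTheory Filter Topology
open scoped nonZeroDivisors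

section

theorem sum_yy {s : Type} [Fintype s] [DecidableEq s] (w : s → ℝ) (i₀ : s) (hw : w i₀ ≠ 0)
    (k : s → ℤ) (t : ℝ) : ∑ i, w i * yy w i₀ k t i = (1 / 2) * Real.log t := by
  rw [← Finset.add_sum_erase univ _ (mem_univ i₀)]
  have h1 : yy w i₀ k t i₀ = ((1 / 2) * Real.log t - ∑ j ∈ univ.erase i₀, w j * k j) / w i₀ := by
    simp [yy]
  have h2 : ∑ i ∈ univ.erase i₀, w i * yy w i₀ k t i = ∑ j ∈ univ.erase i₀, w j * k j := by
    refine sum_congr rfl fun i hi => ?_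
    rw [yy, if_neg (ne_of_mem_erase hi)]
  rw [h1, h2, mul_div_cancel₀ _ hw]
  ring

/-- the sizes in a nonempty cell are bounded -/
theorem cell_bound {s : Type} [Fintype s] [DecidableEq s] (w : s → ℕ) (hw : ∀ i, 1 ≤ w i)
    (hn : 3 ≤ ∑ i, w i) (C : ℝ) (hC : 0 ≤ C) (y : s → ℝ) (j : s)
    (h1 : 2 ≤ w j → -C ≤ y j) (h2 : ∀ i, i ≠ j → -C ≤ y i ∧ -C ≤ y i + y j) (i : s) :
    |y i| ≤ ∑ l, (w l : ℝ) * y l + (∑ l, (w l : ℝ)) * C + C := by
  set S : ℝ := ∑ l, (w l : ℝ) * (y l + C) with hS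
  have hS' : ∑ l, (w l : ℝ) * y l + (∑ l, (w l : ℝ)) * C = S := by
    rw [hS, sum_mul, ← sum_add_distrib]
    exact sum_congr rfl fun l _ => by ring
  rw [hS']
  have hwR : ∀ l, (1 : ℝ) ≤ w l := fun l => by exact_mod_cast hw l
  have hz : ∀ l, l ≠ j → 0 ≤ y l + C := fun l hl => by linarith [(h2 l hl).1]
  rcases le_or_gt 0 (y j + C) with hj | hj
  · have hz' : ∀ l, 0 ≤ y l + C := fun l => by
      by_cases hl : l = j
      · rw [hl]; exact hj
      · exact hz l hl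
    have h3 : ∀ l, 0 ≤ (w l : ℝ) * (y l + C) := fun l =>
      mul_nonneg (by linarith [hwR l]) (hz' l)
    have h4 : (w i : ℝ) * (y i + C) ≤ S := single_le_sum (fun l _ => h3 l) (mem_univ i)
    have h5 : y i + C ≤ (w i : ℝ) * (y i + C) := le_mul_of_one_le_left (hz' i) (hwR i)
    have h6 := hz' i
    rw [abs_le]
    constructor <;> linarith
  · have hwj : w j = 1 := by
      by_contra hne
      have := h1 (by have := hw j; omega)
      linarith
    have hne : ∃ l, l ≠ j := by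
      by_contra hcon
      push Not at hcon
      have h3 : ∑ l, w l = w j := by
        rw [← Finset.add_sum_erase univ _ (mem_univ j)]
        have : univ.erase j = ∅ := by
          rw [Finset.eq_empty_iff_forall_notMem]
          intro l hl
          exact ne_of_mem_erase hl (hcon l)
        rw [this, sum_empty, add_zero]
      omega
    have hnR : (3 : ℝ) ≤ ∑ l, (w l : ℝ) := by exact_mod_cast hn
    have h3 : ∀ l, l ≠ j → (y l + C) + (y j + C) ≤ S + ((∑ l, (w l : ℝ)) - 2) * (y j + C) := by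
      intro l hl
      have h4 : ∀ l ∈ univ.erase j, 0 ≤ (w l : ℝ) * ((y l + C) + (y j + C)) := fun l hl =>
        mul_nonneg (by linarith [hwR l]) (by linarith [(h2 l (ne_of_mem_erase hl)).2])
      have h5 : (w l : ℝ) * ((y l + C) + (y j + C)) ≤
          ∑ l ∈ univ.erase j, (w l : ℝ) * ((y l + C) + (y j + C)) :=
        single_le_sum h4 (mem_erase.2 ⟨hl, mem_univ l⟩)
      have h6 : (y l + C) + (y j + C) ≤ (w l : ℝ) * ((y l + C) + (y j + C)) :=
        le_mul_of_one_le_left (by linarith [(h2 l hl).2]) (hwR l)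
      have h7 : ∑ l ∈ univ.erase j, (w l : ℝ) * ((y l + C) + (y j + C)) =
          (S - (y j + C)) + ((∑ l, (w l : ℝ)) - 1) * (y j + C) := by
        have e1 : S = (y j + C) + ∑ l ∈ univ.erase j, (w l : ℝ) * (y l + C) := by
          rw [hS, ← Finset.add_sum_erase univ _ (mem_univ j), hwj, Nat.cast_one, one_mul]
        have e2 : ∑ l, (w l : ℝ) = 1 + ∑ l ∈ univ.erase j, (w l : ℝ) := by
          rw [← Finset.add_sum_erase univ _ (mem_univ j), hwj, Nat.cast_one]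
        have e3 : ∑ l ∈ univ.erase j, (w l : ℝ) * ((y l + C) + (y j + C)) =
            ∑ l ∈ univ.erase j, (w l : ℝ) * (y l + C) +
              (∑ l ∈ univ.erase j, (w l : ℝ)) * (y j + C) := by
          rw [sum_mul, ← sum_add_distrib]
          exact sum_congr rfl fun l _ => by ring
        rw [e3, e1, e2]
        ring
      linarith
    obtain ⟨l, hl⟩ := hne
    have h4 : 0 ≤ (∑ l, (w l : ℝ)) - 3 := by linarith
    have h8 : ((∑ l, (w l : ℝ)) - 3) * (y j + C) ≤ 0 := mul_nonpos_of_nonneg_of_nonpos h4 hj.le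
    have h5 : ∀ l, l ≠ j → y l + C ≤ S := fun l hl => by
      have := h3 l hl
      nlinarith
    have h6 : -(y j + C) ≤ S := by
      have g1 := h5 l hl
      have g2 := (h2 l hl).2
      linarith
    rw [abs_le]
    by_cases hi : i = j
    · rw [hi]
      constructor <;> linarith
    · have g1 := h5 i hi
      have g2 := hz i hi
      constructor <;> linarith

theorem card_box {s : Type} [Fintype s] [DecidableEq s] (i₀ : s) (N : ℕ) :
    (Fintype.piFinset (fun i => if i = i₀ then ({0} : Finset ℤ) else Icc (-(N : ℤ)) N)).card =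
      (2 * N + 1) ^ (Fintype.card s - 1) := by
  rw [Fintype.card_piFinset, ← Finset.mul_prod_erase univ _ (mem_univ i₀), if_pos rfl,
    card_singleton, one_mul]
  have h : ∀ i ∈ univ.erase i₀, (if i = i₀ then ({0} : Finset ℤ) else Icc (-(N : ℤ)) N).card =
      2 * N + 1 := by
    intro i hi
    rw [if_neg (ne_of_mem_erase hi), Int.card_Icc]
    omega
  rw [prod_congr rfl h, prod_const, card_erase_of_mem (mem_univ i₀), card_univ]

theorem log_mul_le {m τ : ℝ} (hm : 0 ≤ m) (hτ : 0 ≤ τ) :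
    1 + Real.log (1 + m * τ) ≤ (1 + Real.log (1 + m)) * (1 + Real.log (1 + τ)) := by
  have h1 : Real.log (1 + m * τ) ≤ Real.log (1 + m) + Real.log (1 + τ) := by
    rw [← Real.log_mul (by positivity) (by positivity)]
    refine Real.log_le_log (by positivity) ?_
    nlinarith
  have h2 : 0 ≤ Real.log (1 + m) := Real.log_nonneg (by linarith)
  have h3 : 0 ≤ Real.log (1 + τ) := Real.log_nonneg (by linarith)
  nlinarith [mul_nonneg h2 h3]

variable {s : Type} [Fintype s] [DecidableEq s] {K : s → Type} [∀ i, Field (K i)]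
  [∀ i, NumberField (K i)]

theorem tt_yy (i₀ : s) (k : s → ℤ) {t : ℝ} (ht : 0 < t) :
    tt (K := K) (yy (fun i => (finrank ℚ (K i) : ℝ)) i₀ k t) = t := by
  have h0 : (fun i => (finrank ℚ (K i) : ℝ)) i₀ ≠ 0 := by
    simp only [ne_eq, Nat.cast_eq_zero]
    exact (finrank_pos (R := ℚ) (M := K i₀)).ne'
  have h := sum_yy (fun i => (finrank ℚ (K i) : ℝ)) i₀ h0 k t
  rw [tt, h, show 2 * (1 / 2 * Real.log t) = Real.log t by ring, Real.exp_log ht]

/-- the crude bound for one ideal -/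
theorem cr_one (h1 : S_T1 K) (h2 : S_CEL K) (hodd : Odd (dg K)) (hn : 3 ≤ dg K)
    (κ : Ux K → ℝ) (I : FU K) : ∃ C : ℝ, 0 < C ∧ ∀ t : ℝ, 0 < t →
      (SA κ (cf I) t).Finite ∧ ((SA κ (cf I) t).ncard : ℝ) ≤ C * t *
        (1 + Real.log (1 + t)) ^ (Fintype.card s - 1) := by
  obtain ⟨i₀⟩ : Nonempty s := by
    by_contra hcon
    rw [not_nonempty_iff] at hcon
    have : dg K = 0 := by rw [dg, Finset.univ_eq_empty, sum_empty]
    omega
  obtain ⟨C1, hC1, hT⟩ := h1 hodd hn κ i₀ I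
  obtain ⟨C2, hC2, hE⟩ := h2 hodd hn κ i₀ I
  set D : ℝ := (∑ l, (finrank ℚ (K l) : ℝ)) * C2 + C2 with hD
  have hD0 : 0 ≤ D := by positivity
  refine ⟨C1 * (2 * D + 1) ^ (Fintype.card s - 1), by positivity, fun t ht => ?_⟩
  set N : ℕ := ⌊(1 / 2) * Real.log t + D⌋₊ with hN
  set Kt : Finset (s → ℤ) := Fintype.piFinset
    (fun i => if i = i₀ then ({0} : Finset ℤ) else Icc (-(N : ℤ)) N) with hKt
  have hcov : SA κ (cf I) t ⊆
      ⋃ k ∈ Kt, SY κ i₀ (cf I) (yy (fun i => (finrank ℚ (K i) : ℝ)) i₀ k t) := by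
    rintro M ⟨P, hM, hc, hND, hNZ, hpm⟩
    set k : s → ℤ := fun i => if i = i₀ then 0 else ⌊ui (vc P) i⌋ with hk
    have hmem : M ∈ SY κ i₀ (cf I) (yy (fun i => (finrank ℚ (K i) : ℝ)) i₀ k t) := by
      refine ⟨P, hM, hc, hND, hNZ, fun i hi => ?_, ?_⟩
      · have e : yy (fun i => (finrank ℚ (K i) : ℝ)) i₀ k t i = (⌊ui (vc P) i⌋ : ℝ) := by
          rw [yy, if_neg hi, hk]
          simp only [if_neg hi]
        rw [e]
        exact ⟨Int.floor_le _, Int.lt_floor_add_one _⟩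
      · rw [tt_yy i₀ k ht]
        exact hpm
    have h0 : (fun i => (finrank ℚ (K i) : ℝ)) i₀ ≠ 0 := by
      simp only [ne_eq, Nat.cast_eq_zero]
      exact (finrank_pos (R := ℚ) (M := K i₀)).ne'
    have hsum := sum_yy (fun i => (finrank ℚ (K i) : ℝ)) i₀ h0 k t
    obtain ⟨j, hj1, hj2⟩ := hE _ ⟨M, hmem⟩
    have hb := cell_bound (fun i => finrank ℚ (K i)) (fun i => finrank_pos) hn C2 hC2.le
      _ j hj1 hj2
    simp only at hb hsum
    refine Set.mem_biUnion (x := k) ?_ hmem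
    rw [Finset.mem_coe, hKt, Fintype.mem_piFinset]
    intro i
    by_cases hi : i = i₀
    · rw [if_pos hi, hk]
      simp only [if_pos hi, mem_singleton]
    · rw [if_neg hi, mem_Icc, ← abs_le]
      have h3 := hb i
      rw [hsum] at h3
      have e : yy (fun i => (finrank ℚ (K i) : ℝ)) i₀ k t i = (k i : ℝ) := by
        rw [yy, if_neg hi]
      rw [e] at h3
      have h4 : ((k i).natAbs : ℝ) ≤ (1 / 2) * Real.log t + D := by
        rw [Nat.cast_natAbs, Int.cast_abs]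
        linarith
      have h5 : (k i).natAbs ≤ N := Nat.le_floor h4
      rw [Int.abs_eq_natAbs]
      exact_mod_cast h5
  have hfin : (⋃ k ∈ Kt, SY κ i₀ (cf I) (yy (fun i => (finrank ℚ (K i) : ℝ)) i₀ k t)).Finite :=
    Set.Finite.biUnion Kt.finite_toSet fun k _ => (hT _).1.1
  refine ⟨hfin.subset hcov, ?_⟩
  have h3 : (SA κ (cf I) t).ncard ≤
      ∑ k ∈ Kt, (SY κ i₀ (cf I) (yy (fun i => (finrank ℚ (K i) : ℝ)) i₀ k t)).ncard :=
    (Set.ncard_le_ncard hcov hfin).trans (Finset.set_ncard_biUnion_le _ _)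
  have h4 : ((SA κ (cf I) t).ncard : ℝ) ≤ (Kt.card : ℝ) * (C1 * t) := by
    calc ((SA κ (cf I) t).ncard : ℝ) ≤
        ((∑ k ∈ Kt, (SY κ i₀ (cf I) (yy (fun i => (finrank ℚ (K i) : ℝ)) i₀ k t)).ncard : ℕ) :
          ℝ) := by exact_mod_cast h3
      _ = ∑ k ∈ Kt, ((SY κ i₀ (cf I) (yy (fun i => (finrank ℚ (K i) : ℝ)) i₀ k t)).ncard : ℝ) := by
        push_cast
        rfl
      _ ≤ ∑ k ∈ Kt, C1 * t := by
        refine sum_le_sum fun k _ => ?_
        have := (hT (yy (fun i => (finrank ℚ (K i) : ℝ)) i₀ k t)).1.2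
        rwa [tt_yy i₀ k ht] at this
      _ = _ := by rw [sum_const, nsmul_eq_mul]
  have hlog : 0 ≤ Real.log (1 + t) := Real.log_nonneg (by linarith)
  have hlog2 : Real.log t ≤ Real.log (1 + t) := Real.log_le_log ht (by linarith)
  have h5 : (2 * (N : ℝ) + 1) ≤ (2 * D + 1) * (1 + Real.log (1 + t)) := by
    have h6 : (N : ℝ) ≤ (1 / 2) * Real.log (1 + t) + D := by
      rcases le_or_gt 0 ((1 / 2) * Real.log t + D) with h | h
      · exact (Nat.floor_le h).trans (by linarith)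
      · have : N = 0 := Nat.floor_of_nonpos h.le
        rw [this, Nat.cast_zero]
        positivity
    nlinarith [mul_nonneg hD0 hlog]
  have h6 : (Kt.card : ℝ) ≤ ((2 * D + 1) * (1 + Real.log (1 + t))) ^ (Fintype.card s - 1) := by
    rw [hKt, card_box]
    push_cast
    exact pow_le_pow_left₀ (by positivity) h5 _
  calc ((SA κ (cf I) t).ncard : ℝ) ≤ (Kt.card : ℝ) * (C1 * t) := h4
    _ ≤ ((2 * D + 1) * (1 + Real.log (1 + t))) ^ (Fintype.card s - 1) * (C1 * t) := by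
      gcongr
    _ = _ := by rw [mul_pow]; ring

theorem sp_unit (i : s) (u : (𝓞 (K i))ˣ) : sp ((u : 𝓞 (K i)) : K i) = 1 := by
  refine le_antisymm ?_ ?_
  · rw [KF.sp_le]
    exact FractionalIdeal.coe_mem_one (𝓞 (K i))⁰ (u : 𝓞 (K i))
  · have h1 : sp (((u⁻¹ : (𝓞 (K i))ˣ) : 𝓞 (K i)) : K i) ≤ 1 := by
      rw [KF.sp_le]
      exact FractionalIdeal.coe_mem_one (𝓞 (K i))⁰ ((u⁻¹ : (𝓞 (K i))ˣ) : 𝓞 (K i))
    have h2 : sp ((u : 𝓞 (K i)) : K i) * sp (((u⁻¹ : (𝓞 (K i))ˣ) : 𝓞 (K i)) : K i) = 1 := by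
      rw [← KF.sp_mul, ← map_mul, ← Units.val_mul, mul_inv_cancel, Units.val_one, map_one]
      exact spanSingleton_one
    calc (1 : FI (K i)) =
        sp ((u : 𝓞 (K i)) : K i) * sp (((u⁻¹ : (𝓞 (K i))ˣ) : 𝓞 (K i)) : K i) := h2.symm
      _ ≤ sp ((u : 𝓞 (K i)) : K i) * 1 := by gcongr
      _ = sp ((u : 𝓞 (K i)) : K i) := mul_one _

theorem LT_sm_inj {a : Al K} (ha : ∀ i, a i ≠ 0) {P Q : Al K × Al K}
    (h : LT (sm a P) = LT (sm a Q)) : LT P = LT Q := by
  have key : ∀ P Q : Al K × Al K, LT (sm a P) = LT (sm a Q) → LT P ≤ LT Q := by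
    intro P Q h y hy
    have h1 : a * y ∈ LT (sm a P) := mem_LT_sm.2 ⟨y, hy, rfl⟩
    rw [h] at h1
    obtain ⟨z, hz, hz'⟩ := mem_LT_sm.1 h1
    have : y = z := by
      funext i
      exact mul_left_cancel₀ (ha i) (congrFun hz' i)
    rw [this]
    exact hz
  exact le_antisymm (key P Q h) (key Q P h.symm)

theorem NZ_congr {κ : Ux K → ℝ} {v w : Em K → ℂ × ℂ} (h : cc v = cc w) (hv : NZ κ v) :
    NZ κ w := by
  intro j
  rw [← h]
  exact hv j

theorem un_ne (u : ∀ i, (𝓞 (K i))ˣ) (i : s) : un u i ≠ 0 := by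
  intro h0
  exact (u i).ne_zero (RingOfIntegers.ext (by rw [un] at h0; rw [h0]; rfl))

theorem cr (h1 : S_T1 K) (h2 : S_CEL K) (h3 : S_PAR K) (h4 : S_CLS K) (h5 : S_HB K) :
    S_CR K := by
  intro hodd hn κ
  obtain ⟨R, hR, -⟩ := h4
  choose Cr hCr hCr2 using fun r => cr_one h1 h2 hodd hn κ r
  have hnm : ∀ r : FU K, (0 : ℝ) < ((nA (cf r) : ℚ) : ℝ) := fun r => by
    exact_mod_cast nA_pos fun i => (r i).ne_zero
  set W : ℕ := Nat.card (∀ i, Units.torsion (K i)) with hW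
  set B : FU K → ℝ := fun r => (W : ℝ) * Cr r * ((nA (cf r) : ℚ) : ℝ) ^ 2 *
    (1 + Real.log (1 + ((nA (cf r) : ℚ) : ℝ) ^ 2)) ^ (Fintype.card s - 1) with hB
  have hpos : ∀ r ∈ R, 0 ≤ B r := fun r _ => by
    have g1 := hCr r
    have g2 : 0 ≤ Real.log (1 + ((nA (cf r) : ℚ) : ℝ) ^ 2) :=
      Real.log_nonneg (by nlinarith [sq_nonneg ((nA (cf r) : ℚ) : ℝ)])
    rw [hB]
    positivity
  refine ⟨∑ r ∈ R, B r + 1, by
    have := sum_nonneg hpos
    linarith, fun I t ht => ?_⟩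
  obtain ⟨r, hr, x, hI⟩ := hR I
  have hx : ∀ i, x i ≠ 0 := fun i => (hI i).1
  have hI' : ∀ i, (I i : FI (K i)) = sp (x i) * (r i : FI (K i)) := fun i => (hI i).2
  have hx' : ∀ i, x⁻¹ i ≠ 0 := fun i => inv_ne_zero (hx i)
  have hpe : ∀ {v : Em K → ℂ × ℂ}, 0 < pm v → ∀ e, 0 < pm (ext v e) :=
    fun hv e => pm_ext_pos hodd hv e
  -- the map
  have hch : ∀ M : Submodule ℤ (Al K), ∃ (P : Al K × Al K) (u : ∀ i, (𝓞 (K i))ˣ),
      M ∈ SA κ (cf I) t →
      (M = LT P ∧ (∀ i, cn P i ≤ cf I i) ∧ ND P ∧ NZ κ (vc P) ∧ pm (vc P) ≤ t ∧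
        NZ κ (vc (sm (un u) (sm x⁻¹ P)))) := by
    intro M
    by_cases hM : M ∈ SA κ (cf I) t
    · obtain ⟨P, e1, e2, e3, e4, e5⟩ := hM
      have hN := e3.sm hx'
      have hv := hN.pm_pos (show 2 ≤ dg K by omega)
      obtain ⟨u, hu⟩ := (unt _ hv (hpe hv)).1 κ
      exact ⟨P, u, fun _ => ⟨e1, e2, e3, e4, e5, by rw [vc_sm]; exact hu⟩⟩
    · exact ⟨(0, 0), fun _ => 1, fun h => absurd h hM⟩
  choose Pf uf hPf using hch
  set t' : ℝ := ((nA (cf r) : ℚ) : ℝ) ^ 2 * (t / ((nA (cf I) : ℚ) : ℝ) ^ 2) with ht'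
  have hnI := hnm I
  have hnr := hnm r
  have ht'0 : 0 < t' := by positivity
  obtain ⟨g1, g2⟩ := hCr2 r t' ht'0
  have hsx : ∀ i, sp (x⁻¹ i) * (I i : FI (K i)) = (r i : FI (K i)) := by
    intro i
    rw [hI' i, ← mul_assoc, ← KF.sp_mul, Pi.inv_apply, inv_mul_cancel₀ (hx i)]
    show spanSingleton (𝓞 (K i))⁰ (1 : K i) * (r i : FI (K i)) = r i
    rw [spanSingleton_one, one_mul]
  have hnx : nA (fun i => sp (x⁻¹ i)) * nA (cf I) = nA (cf r) := by
    rw [← nA_mul]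
    exact congrArg nA (funext hsx)
  have hmaps : ∀ M ∈ SA κ (cf I) t,
      LT (sm (un (uf M)) (sm x⁻¹ (Pf M))) ∈ SA κ (cf r) t' := by
    intro M hM
    obtain ⟨e1, e2, e3, e4, e5, e6⟩ := hPf M hM
    refine ⟨_, rfl, fun i => ?_, (e3.sm hx').sm (un_ne _), e6, ?_⟩
    · rw [cn_sm, cn_sm]
      show sp (((uf M i : 𝓞 (K i)) : K i)) * (sp (x⁻¹ i) * cn (Pf M) i) ≤ (r i : FI (K i))
      rw [sp_unit, one_mul]
      calc sp (x⁻¹ i) * cn (Pf M) i ≤ sp (x⁻¹ i) * (I i : FI (K i)) := by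
            have := e2 i
            gcongr
            exact this
        _ = (r i : FI (K i)) := hsx i
    · rw [pm_vc_sm, pm_vc_sm, nA_sp_unit]
      have h6 : ((nA (fun i => sp (x⁻¹ i)) : ℚ) : ℝ) =
          ((nA (cf r) : ℚ) : ℝ) / ((nA (cf I) : ℚ) : ℝ) := by
        rw [eq_div_iff hnI.ne']
        exact_mod_cast hnx
      rw [h6, ht', Rat.cast_one, one_pow, one_mul, div_pow, div_mul_eq_mul_div, mul_div_assoc']
      exact div_le_div_of_nonneg_right (mul_le_mul_of_nonneg_left e5 (by positivity))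
        (by positivity)
  -- the fibres
  have hfib : ∀ M ∈ SA κ (cf I) t, ∀ M' ∈ SA κ (cf I) t,
      LT (sm (un (uf M')) (sm x⁻¹ (Pf M'))) = LT (sm (un (uf M)) (sm x⁻¹ (Pf M))) →
      ∃ w : ∀ i, Units.torsion (K i), M' = LT (sm (un fun i => (w i : (𝓞 (K i))ˣ)) (Pf M)) := by
    intro M hM M' hM' heq
    obtain ⟨e1, e2, e3, e4, e5, e6⟩ := hPf M hM
    obtain ⟨f1, f2, f3, f4, f5, f6⟩ := hPf M' hM'
    set w : ∀ i, (𝓞 (K i))ˣ := fun i => uf M i * (uf M' i)⁻¹ with hw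
    have hwK : un (uf M') * un w = un (uf M) := by
      funext i
      show (((uf M' i : 𝓞 (K i)) : K i)) * (((w i : 𝓞 (K i))) : K i) = ((uf M i : 𝓞 (K i)) : K i)
      have e : uf M' i * w i = uf M i := by
        show uf M' i * (uf M i * (uf M' i)⁻¹) = uf M i
        rw [mul_comm (uf M i), mul_inv_cancel_left]
      rw [← map_mul, ← Units.val_mul, e]
    have heq2 : sm (un (uf M)) (sm x⁻¹ (Pf M)) =
        sm (un (uf M')) (sm x⁻¹ (sm (un w) (Pf M))) := by
      rw [sm_sm, sm_sm, sm_sm, ← hwK]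
      congr 1
      ring
    rw [heq2] at heq
    have h6 : LT (Pf M') = LT (sm (un w) (Pf M)) := LT_sm_inj hx' (LT_sm_inj (un_ne _) heq)
    have h7 := (LT_inv hodd (show 2 ≤ dg K by omega) f3 h6).2.2.1
    have h8 : NZ κ (fun e => e.2 (un w e.1) • vc (Pf M) e) := by
      rw [← vc_sm]
      exact NZ_congr h7.symm f4
    have hv := e3.pm_pos (show 2 ≤ dg K by omega)
    have h9 := (unt _ hv (hpe hv)).2.2.1 κ w e4 h8
    exact ⟨fun i => ⟨w i, h9 i⟩, by rw [f1, h6]⟩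
  set f : Submodule ℤ (Al K) → Submodule ℤ (Al K) := fun M =>
    LT (sm (un (uf M)) (sm x⁻¹ (Pf M))) with hf
  have hcard : ∀ b : Submodule ℤ (Al K), {M ∈ SA κ (cf I) t | f M = b}.Finite ∧
      {M ∈ SA κ (cf I) t | f M = b}.ncard ≤ W := by
    intro b
    rcases {M ∈ SA κ (cf I) t | f M = b}.eq_empty_or_nonempty with he | ⟨M, hM, hMb⟩
    · rw [he]
      exact ⟨Set.finite_empty, by rw [Set.ncard_empty]; exact Nat.zero_le _⟩
    · have hsub : {M ∈ SA κ (cf I) t | f M = b} ⊆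
          (fun w : ∀ i, Units.torsion (K i) =>
            LT (sm (un fun i => (w i : (𝓞 (K i))ˣ)) (Pf M))) '' Set.univ := by
        rintro M' ⟨hM', hMb'⟩
        obtain ⟨w, hw⟩ := hfib M hM M' hM' (by
          show f M' = f M
          rw [hMb', hMb])
        exact ⟨w, Set.mem_univ w, hw.symm⟩
      have hfin : ((fun w : ∀ i, Units.torsion (K i) =>
          LT (sm (un fun i => (w i : (𝓞 (K i))ˣ)) (Pf M))) '' Set.univ).Finite :=
        Set.toFinite _
      refine ⟨hfin.subset hsub, (Set.ncard_le_ncard hsub hfin).trans ?_⟩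
      refine (Set.ncard_image_le (Set.toFinite _)).trans ?_
      rw [Set.ncard_univ]
  have hcov : SA κ (cf I) t ⊆ ⋃ b ∈ g1.toFinset, {M ∈ SA κ (cf I) t | f M = b} := by
    intro M hM
    refine Set.mem_biUnion (x := f M) ?_ ⟨hM, rfl⟩
    rw [Finset.mem_coe, Set.Finite.mem_toFinset]
    exact hmaps M hM
  have hfin : (⋃ b ∈ g1.toFinset, {M ∈ SA κ (cf I) t | f M = b}).Finite :=
    Set.Finite.biUnion (Finset.finite_toSet _) fun b _ => (hcard b).1
  refine ⟨hfin.subset hcov, ?_⟩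
  have h6 : (SA κ (cf I) t).ncard ≤ (SA κ (cf r) t').ncard * W := by
    calc (SA κ (cf I) t).ncard ≤ ∑ b ∈ g1.toFinset, {M ∈ SA κ (cf I) t | f M = b}.ncard :=
          (Set.ncard_le_ncard hcov hfin).trans (Finset.set_ncard_biUnion_le _ _)
      _ ≤ ∑ b ∈ g1.toFinset, W := sum_le_sum fun b _ => (hcard b).2
      _ = (SA κ (cf r) t').ncard * W := by
        rw [sum_const, smul_eq_mul, Set.ncard_eq_toFinset_card _ g1]
  have h7 : ((SA κ (cf I) t).ncard : ℝ) ≤ ((SA κ (cf r) t').ncard : ℝ) * W := by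
    exact_mod_cast h6
  have h8 : B r ≤ ∑ r ∈ R, B r := single_le_sum hpos hr
  have hτ : 0 < t / ((nA (cf I) : ℚ) : ℝ) ^ 2 := by positivity
  have hlogt : 0 ≤ Real.log (1 + t / ((nA (cf I) : ℚ) : ℝ) ^ 2) :=
    Real.log_nonneg (by linarith)
  have hlogt' : 0 ≤ Real.log (1 + t') := Real.log_nonneg (by linarith)
  have h9 : (1 + Real.log (1 + t')) ^ (Fintype.card s - 1) ≤
      (1 + Real.log (1 + ((nA (cf r) : ℚ) : ℝ) ^ 2)) ^ (Fintype.card s - 1) *
      (1 + Real.log (1 + t / ((nA (cf I) : ℚ) : ℝ) ^ 2)) ^ (Fintype.card s - 1) := by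
    rw [← mul_pow]
    refine pow_le_pow_left₀ (by positivity) ?_ _
    rw [ht']
    exact log_mul_le (by positivity) hτ.le
  have hCr0 := hCr r
  calc ((SA κ (cf I) t).ncard : ℝ) ≤ ((SA κ (cf r) t').ncard : ℝ) * W := h7
    _ ≤ (Cr r * t' * (1 + Real.log (1 + t')) ^ (Fintype.card s - 1)) * W := by gcongr
    _ ≤ (Cr r * t' * ((1 + Real.log (1 + ((nA (cf r) : ℚ) : ℝ) ^ 2)) ^ (Fintype.card s - 1) *
      (1 + Real.log (1 + t / ((nA (cf I) : ℚ) : ℝ) ^ 2)) ^ (Fintype.card s - 1))) * W := by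
      gcongr
    _ = B r * (t / ((nA (cf I) : ℚ) : ℝ) ^ 2) *
      (1 + Real.log (1 + t / ((nA (cf I) : ℚ) : ℝ) ^ 2)) ^ (Fintype.card s - 1) := by
      rw [hB, ht']
      ring
    _ ≤ _ := by
      gcongr
      linarith

end

end Pool.Agent.Y858.KE
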